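import Pool.Agent.Helper51.CX.St

/-!
# Project CX (MP_a41ee4_co), module GAP
-/

set_option autoImplicit false

namespace Pool.Agent.Helper33.CX

open Pool.Agent.Helper51.CX

theorem hGAP : StGAP := by
  intro K _ _ _ j h1 h2 z
  obtain ⟨a1, a2, a3, a4, -, -, a7, a8, -⟩ := hT1 j h2 h1
  obtain ⟨b1, b2, b3, b4, b5, b6⟩ := hT2' (ga j) a7
  obtain ⟨c1, c2, c3, c4, c5, c6⟩ := hT2' (gb j) a8
  have a1' : (qx j : K) = (qx (ga j) : K) - (la j : K) * (fy j : K) := by
    have : qx j = qx (ga j) - la j * fy j := by linarith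
    exact_mod_cast congrArg (Int.cast : ℤ → K) this
  have a2' : (qy j : K) = (qy (ga j) : K) + (la j : K) * (fx j : K) := by
    have : qy j = qy (ga j) + la j * fx j := by linarith
    exact_mod_cast congrArg (Int.cast : ℤ → K) this
  have a3' : (qx (gb j) : K) = (qx j : K) - (la j : K) * (fy j : K) := by
    have : qx (gb j) = qx j - la j * fy j := by linarith
    exact_mod_cast congrArg (Int.cast : ℤ → K) this
  have a4' : (qy (gb j) : K) = (qy j : K) + (la j : K) * (fx j : K) := by
    have : qy (gb j) = qy j + la j * fx j := by linarith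
    exact_mod_cast congrArg (Int.cast : ℤ → K) this
  constructor
  · unfold L ww pp el
    rw [b6, a1', a2']
    push_cast
    ring
  · unfold L ww pp el
    rw [c6, a3', a4']
    push_cast
    ring

end Pool.Agent.Helper33.CX
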